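import Mathlib

namespace Pool.Agent.H241Z.BT

/-- `Λ(d,m)`: the exponent vectors `(α₁, …, α_{m+1})` of non-negative integers with sum `d`. -/
def Lam (d m : ℕ) : Finset (Fin (m + 1) → ℕ) := Finset.piAntidiag Finset.univ d

/-- `Λ(d,m)` listed in descending lexicographic order. -/
noncomputable def lamList (d m : ℕ) : List (Lex (Fin (m + 1) → ℕ)) :=
  ((Lam d m).map toLex.toEmbedding).sort (· ≥ ·)

/-- The `r`-th element (counting from `r = 1`) of `Λ(d,m)` in descending lexicographic order. -/
noncomputable def nu (d m r : ℕ) : Fin (m + 1) → ℕ :=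
  ofLex ((lamList d m).getD (r - 1) (toLex 0))

/-- The `r`-tuples of linearly independent forms of degree `d` in `m + 1` variables over `k`. -/
def Fam (k : Type) [Field k] (m d r : ℕ) : Set (Fin r → MvPolynomial (Fin (m + 1)) k) :=
  {F | LinearIndependent k F ∧ ∀ j, (F j).IsHomogeneous d}

/-- The dim-type of `V(F₁, …, F_r) ⊆ ℙ^m` over `k`: the entry with index `i : Fin m` is the number
of irreducible components of codimension `i + 1`, that is, of minimal primes of height `i + 1`
over the ideal `(F₁, …, F_r)` of `k[x₀, …, x_m]`. -/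
noncomputable def dimType {k : Type} [Field k] {m r : ℕ}
    (F : Fin r → MvPolynomial (Fin (m + 1)) k) : Fin m → ℕ :=
  fun i => Set.ncard {P : Ideal (MvPolynomial (Fin (m + 1)) k) |
    P ∈ (Ideal.span (Set.range F)).minimalPrimes ∧ P.height = (((i : ℕ) + 1 : ℕ) : ℕ∞)}

end Pool.Agent.H241Z.BT
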