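import Mathlib
import Pool.Agent.Helper226.Dim
import Pool.Agent.Helper834.EC.Dim1

namespace Pool.Agent.H241Z.BT

open Order

/-- `dim R/I ≥ e`. -/
def DimGe {R : Type*} [CommRing R] (I : Ideal R) (e : ℕ) : Prop :=
  (e : WithBot ℕ∞) ≤ ringKrullDim (R ⧸ I)

section general
variable {R : Type*} [CommRing R]

lemma dimGe_iff (I : Ideal R) (e : ℕ) :
    DimGe I e ↔ ∃ l : LTSeries (PrimeSpectrum R), I ≤ l.head.asIdeal ∧ l.length = e := by
  unfold DimGe
  rw [ringKrullDim_quotient, Order.le_krullDim_iff]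
  constructor
  · rintro ⟨l, hl⟩
    refine ⟨l.map Subtype.val (fun a b h => h), ?_, hl⟩
    have := (l.head).2
    rw [PrimeSpectrum.mem_zeroLocus] at this
    exact this
  · rintro ⟨l, hl, hlen⟩
    have hmem : ∀ i, l i ∈ PrimeSpectrum.zeroLocus (R := R) I := by
      intro i
      rw [PrimeSpectrum.mem_zeroLocus]
      have h1 : l.head ≤ l i := l.head_le i
      exact fun x hx => h1 (hl hx)
    exact ⟨⟨l.length, fun i => ⟨l i, hmem i⟩, fun i => l.step i⟩, hlen⟩

lemma DimGe.mono {I J : Ideal R} {e : ℕ} (h : I ≤ J) (hJ : DimGe J e) : DimGe I e := by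
  rw [dimGe_iff] at hJ ⊢
  obtain ⟨l, hl, hlen⟩ := hJ
  exact ⟨l, h.trans hl, hlen⟩

lemma DimGe.of_le {I : Ideal R} {e e' : ℕ} (h : e' ≤ e) (hI : DimGe I e) : DimGe I e' := by
  unfold DimGe at hI ⊢
  exact le_trans (by exact_mod_cast h) hI

lemma DimGe.exists_minimal {I : Ideal R} {e : ℕ} (hI : DimGe I e) :
    ∃ Q ∈ I.minimalPrimes, DimGe Q e := by
  rw [dimGe_iff] at hI
  obtain ⟨l, hl, hlen⟩ := hI
  have := l.head.isPrime
  obtain ⟨Q, hQ, hQl⟩ := Ideal.exists_minimalPrimes_le hl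
  exact ⟨Q, hQ, (dimGe_iff _ _).2 ⟨l, hQl, hlen⟩⟩

lemma DimGe.not_le {P M : Ideal R} (hP : DimGe P 1) (hM : M.IsMaximal) : ¬ M ≤ P := by
  rw [dimGe_iff] at hP
  obtain ⟨l, hl, hlen⟩ := hP
  intro h
  have h1 : l.head < l.last := by
    apply l.strictMono
    rw [Fin.lt_def]
    simp [hlen]
  have h2 : M < l.last.asIdeal := lt_of_le_of_lt (h.trans hl) h1
  exact l.last.isPrime.ne_top (hM.out.2 _ h2)

lemma dimGe_one_of_lt {P M : Ideal R} (hP : P.IsPrime) (hM : M.IsPrime) (h : P < M) :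
    DimGe P 1 := by
  rw [dimGe_iff]
  exact ⟨(RelSeries.singleton _ (⟨P, hP⟩ : PrimeSpectrum R)).snoc ⟨M, hM⟩ h, le_rfl, rfl⟩

lemma exists_maximal_notMem [IsJacobsonRing R] {P : Ideal R} (hP : P.IsPrime) {g : R}
    (hg : g ∉ P) : ∃ M : Ideal R, M.IsMaximal ∧ P ≤ M ∧ g ∉ M := by
  have h := (isJacobsonRing_iff_prime_eq.1 ‹_›) P hP
  rw [← h, Ideal.jacobson, Ideal.mem_sInf] at hg
  push Not at hg
  obtain ⟨M, ⟨h1, h2⟩, h3⟩ := hg
  exact ⟨M, h2, h1, h3⟩

lemma exists_mem_notMem {ι : Type*} (T : Finset ι) (Q : ι → Ideal R) {P : Ideal R}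
    (hP : P.IsPrime) (h : ∀ i ∈ T, ¬ Q i ≤ P) : ∃ g, g ∉ P ∧ ∀ i ∈ T, g ∈ Q i := by
  have h1 : ¬ T.inf Q ≤ P := by
    rw [hP.inf_le']
    rintro ⟨i, hi, hle⟩
    exact h i hi hle
  obtain ⟨g, hg1, hg2⟩ := Set.not_subset.1 h1
  refine ⟨g, hg2, fun i hi => ?_⟩
  exact (Finset.inf_le hi : T.inf Q ≤ Q i) hg1

/-- a minimal prime of `P + (x)` containing `P'` is a minimal prime of `P + P'`. -/
lemma mem_minimalPrimes_sup_of_le [IsNoetherianRing R] {P P' Q : Ideal R} {x : R}
    (hP : P.IsPrime) (hQ : Q ∈ (P ⊔ Ideal.span {x}).minimalPrimes) (hP' : ¬ P' ≤ P)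
    (hle : P' ≤ Q) : Q ∈ (P ⊔ P').minimalPrimes := by
  have hQp : Q.IsPrime := hQ.1.1
  have hPQ : P ≤ Q := le_sup_left.trans hQ.1.2
  obtain ⟨Q', hQ', hQ'le⟩ := Ideal.exists_minimalPrimes_le (I := P ⊔ P') (J := Q) (sup_le hPQ hle)
  suffices Q' = Q by rw [← this]; exact hQ'
  by_contra hne
  have hlt : Q' < Q := lt_of_le_of_ne hQ'le hne
  have hQ'p : Q'.IsPrime := hQ'.1.1
  have hPQ' : P ≤ Q' := le_sup_left.trans hQ'.1.2
  have hPlt : P < Q' := lt_of_le_of_ne hPQ' (fun h => hP' (by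
    rw [h]; exact le_sup_right.trans hQ'.1.2))
  have h1 := Ideal.map_height_le_one_of_mem_minimalPrimes hQ
  have p1 : (Q.map (Ideal.Quotient.mk P)).IsPrime := Ideal.isPrime_map_quotientMk_of_isPrime hPQ
  have p2 : (Q'.map (Ideal.Quotient.mk P)).IsPrime := Ideal.isPrime_map_quotientMk_of_isPrime hPQ'
  have p3 : (P.map (Ideal.Quotient.mk P)).IsPrime := Ideal.isPrime_map_quotientMk_of_isPrime le_rfl
  have key : ∀ A B : Ideal R, P ≤ A → A < B →
      A.map (Ideal.Quotient.mk P) < B.map (Ideal.Quotient.mk P) := by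
    intro A B hA hAB
    refine lt_of_le_of_ne (Ideal.map_mono hAB.le) (fun h => ?_)
    have := congrArg (Ideal.comap (Ideal.Quotient.mk P)) h
    rw [Ideal.comap_map_of_surjective _ Ideal.Quotient.mk_surjective,
      Ideal.comap_map_of_surjective _ Ideal.Quotient.mk_surjective, ← RingHom.ker_eq_comap_bot,
      Ideal.mk_ker, sup_eq_left.2 hA, sup_eq_left.2 (hA.trans hAB.le)] at this
    exact hAB.ne this
  have a1 := Ideal.height_add_one_le_of_lt_of_isPrime (key P Q' le_rfl hPlt)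
  have a2 := Ideal.height_add_one_le_of_lt_of_isPrime (key Q' Q hPQ' hlt)
  have a3 : (1 : ℕ∞) ≤ (Q'.map (Ideal.Quotient.mk P)).height := le_trans le_add_self a1
  have a4 : (1 : ℕ∞) + 1 ≤ 1 := le_trans (by gcongr) (a2.trans h1)
  exact absurd a4 (by decide)

end general

section affine
variable {K : Type*} [Field K] {R : Type*} [CommRing R] [Algebra K R] [Algebra.FiniteType K R]
include K

lemma DimGe.section {P M : Ideal R} (hP : P.IsPrime) (hM : M.IsMaximal) (hPM : P ≤ M) {x : R}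
    (hx : x ∈ M) {e : ℕ} (h : DimGe P (e + 1)) : DimGe (P ⊔ Ideal.span {x}) e := by
  have hN : IsNoetherianRing (R ⧸ P) := Algebra.FiniteType.isNoetherianRing K _
  have hM' : (M.map (Ideal.Quotient.mk P)).IsMaximal := by
    have := Ideal.map_eq_top_or_isMaximal_of_surjective (Ideal.Quotient.mk P)
      Ideal.Quotient.mk_surjective hM
    rcases this with h1 | h1
    · exact absurd h1 (Ideal.isPrime_map_quotientMk_of_isPrime (p := M) hPM).ne_top
    · exact h1
  have h1 := Pool.Agent.Helper226.height_eq_ringKrullDim K (R ⧸ P) _ hM'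
  have h2 := Ideal.height_le_ringKrullDim_quotient_add_one
    (p := M.map (Ideal.Quotient.mk P)) (r := Ideal.Quotient.mk P x) (Ideal.mem_map_of_mem _ hx)
  have h3 : ringKrullDim ((R ⧸ P) ⧸ Ideal.span {Ideal.Quotient.mk P x}) =
      ringKrullDim (R ⧸ (P ⊔ Ideal.span {x})) := by
    rw [← ringKrullDim_eq_of_ringEquiv (DoubleQuot.quotQuotEquivQuotSup P (Ideal.span {x})),
      Ideal.map_span, Set.image_singleton]
  unfold DimGe at h ⊢
  rw [h3, h1] at h2
  have h4 := h.trans h2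
  generalize ringKrullDim (R ⧸ (P ⊔ Ideal.span {x})) = z at h4
  induction z using WithBot.recBotCoe with
  | bot => simp at h4
  | coe z =>
    induction z using ENat.recTopCoe with
    | top => exact le_top
    | coe z =>
      have h5 : ((e + 1 : ℕ) : WithBot ℕ∞) ≤ ((z + 1 : ℕ) : WithBot ℕ∞) := by
        push_cast at h4 ⊢
        exact h4
      have h6 : e + 1 ≤ z + 1 := by exact_mod_cast h5
      have h7 : e ≤ z := by omega
      exact_mod_cast h7

end affine

/-- dimension formula (the inequality we need) in polynomial rings. -/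
lemma dimGe_of_height {k : Type*} [Field k] {n h : ℕ} (P : Ideal (MvPolynomial (Fin n) k))
    (hP : P.IsPrime) (hh : P.height = h) : DimGe P (n - h) := by
  classical
  obtain ⟨s, hs, hcard⟩ := Ideal.exists_finset_card_eq_height_of_isNoetherianRing P
  have hfin := Ideal.finite_minimalPrimes_of_isNoetherianRing _ (Ideal.span (s : Set (MvPolynomial (Fin n) k)))
  obtain ⟨g, hg1, hg2⟩ := exists_mem_notMem (hfin.toFinset.erase P) id hP (by
    intro Q hQ hle
    rw [Finset.mem_erase, Set.Finite.mem_toFinset] at hQ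
    exact hQ.1 (le_antisymm hle (hs.2 hQ.2.1 hle)))
  obtain ⟨M, hM, hPM, hgM⟩ := exists_maximal_notMem hP hg1
  have h1 := Pool.Agent.Helper226.mvPolynomial_height k n M hM
  have hsM : (s : Set (MvPolynomial (Fin n) k)) ⊆ M :=
    fun x hx => hPM (hs.1.2 (Ideal.subset_span hx))
  have hsM' : Ideal.span (s : Set (MvPolynomial (Fin n) k)) ≤ M := Ideal.span_le.2 hsM
  have h2 := Ideal.height_le_height_add_encard_of_subset (s : Set (MvPolynomial (Fin n) k)) hsM
  have p1 : (M.map (Ideal.Quotient.mk (Ideal.span (s : Set (MvPolynomial (Fin n) k))))).IsPrime :=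
    Ideal.isPrime_map_quotientMk_of_isPrime hsM'
  obtain ⟨l, hl1, hl2⟩ := Ideal.exists_ltSeries_length_eq_height
    (M.map (Ideal.Quotient.mk (Ideal.span (s : Set (MvPolynomial (Fin n) k)))))
  rw [h1, ← hl2, Set.encard_coe_eq_coe_finsetCard, hcard, hh] at h2
  have h3 : n ≤ l.length + h := by exact_mod_cast h2
  refine DimGe.of_le (e := l.length) (by omega) ?_
  rw [dimGe_iff]
  let f := Ideal.Quotient.mk (Ideal.span (s : Set (MvPolynomial (Fin n) k)))
  have hf : StrictMono (PrimeSpectrum.comap f) := by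
    intro a b hab
    refine lt_of_le_of_ne (Ideal.comap_mono hab.le) (fun h => hab.ne ?_)
    exact PrimeSpectrum.comap_injective_of_surjective f Ideal.Quotient.mk_surjective h
  refine ⟨l.map _ hf, ?_, by simp⟩
  have hhead : (l.map _ hf).head.asIdeal = l.head.asIdeal.comap f := rfl
  rw [hhead]
  have := l.head.isPrime
  have hI : Ideal.span (s : Set (MvPolynomial (Fin n) k)) ≤ l.head.asIdeal.comap f := by
    intro x hx
    rw [Ideal.mem_comap, Ideal.Quotient.eq_zero_iff_mem.2 hx]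
    exact zero_mem _
  obtain ⟨P', hP', hP'le⟩ := Ideal.exists_minimalPrimes_le hI
  have hM2 : l.head.asIdeal.comap f ≤ M := by
    have h4 : l.head ≤ l.last := l.head_le_last
    have h5 : l.head.asIdeal ≤ M.map f := by
      have : l.last.asIdeal = M.map f := by rw [hl1]
      rw [← this]; exact h4
    refine (Ideal.comap_mono h5).trans ?_
    rw [Ideal.comap_map_of_surjective _ Ideal.Quotient.mk_surjective, ← RingHom.ker_eq_comap_bot,
      Ideal.mk_ker, sup_eq_left.2 hsM']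
  by_cases hPP : P' = P
  · rw [← hPP]; exact hP'le
  · exfalso
    apply hgM
    exact hM2 (hP'le (hg2 P' (by
      rw [Finset.mem_erase, Set.Finite.mem_toFinset]; exact ⟨hPP, hP'⟩)))

end Pool.Agent.H241Z.BT
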