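import Mathlib
import Pool.Agent.H241Z.BT.Dim

namespace Pool.Agent.H241Z.BT

open MvPolynomial

variable {K : Type*} [Field K] {σ : Type*}

/-- homogeneous ideals -/
def Hom (I : Ideal (MvPolynomial σ K)) : Prop := ∀ f ∈ I, ∀ n, homogeneousComponent n f ∈ I

/-- the irrelevant ideal -/
noncomputable def irr (σ K : Type*) [Field K] : Ideal (MvPolynomial σ K) :=
  RingHom.ker (constantCoeff : MvPolynomial σ K →+* K)

attribute [local instance] MvPolynomial.gradedAlgebra

lemma hom_iff (I : Ideal (MvPolynomial σ K)) :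
    Hom I ↔ I.IsHomogeneous (homogeneousSubmodule σ K) := by
  constructor
  · intro h i r hr
    have := h r hr i
    rw [← decomposition.decompose'_apply] at this
    exact this
  · intro h f hf n
    exact homogeneousComponent_mem_of_mem h hf n

lemma exists_core {Q : Ideal (MvPolynomial σ K)} (hQ : Q.IsPrime) :
    ∃ Q' : Ideal (MvPolynomial σ K), Q'.IsPrime ∧ Hom Q' ∧ Q' ≤ Q ∧
      ∀ f n, IsHomogeneous f n → f ∈ Q → f ∈ Q' := by
  refine ⟨(Q.homogeneousCore (homogeneousSubmodule σ K)).toIdeal, hQ.homogeneousCore,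
    (hom_iff _).2 (HomogeneousIdeal.isHomogeneous _), Ideal.toIdeal_homogeneousCore_le _ _, ?_⟩
  intro f n hf hfQ
  exact Ideal.mem_homogeneousCore_of_homogeneous_of_mem ⟨n, hf⟩ hfQ

lemma Hom.le_of_forall {I Q : Ideal (MvPolynomial σ K)} (hI : Hom I)
    (h : ∀ f n, IsHomogeneous f n → f ∈ I → f ∈ Q) : I ≤ Q := by
  intro f hf
  rw [← sum_homogeneousComponent f]
  exact Ideal.sum_mem _ fun n _ => h _ n (homogeneousComponent_isHomogeneous n f) (hI f hf n)

lemma Hom.of_minimal {I Q : Ideal (MvPolynomial σ K)} (hI : Hom I) (hQ : Q ∈ I.minimalPrimes) :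
    Hom Q := by
  obtain ⟨Q', h1, h2, h3, h4⟩ := exists_core hQ.1.1
  have h5 : I ≤ Q' := hI.le_of_forall fun f n hf hfI => h4 f n hf (hQ.1.2 hfI)
  have : Q' = Q := le_antisymm h3 (hQ.2 ⟨h1, h5⟩ h3)
  rw [← this]; exact h2

lemma hom_span {s : Set (MvPolynomial σ K)} (hs : ∀ f ∈ s, ∃ n, IsHomogeneous f n) :
    Hom (Ideal.span s) :=
  (hom_iff _).2 (Ideal.homogeneous_span _ s fun f hf => hs f hf)

lemma Hom.sup {I J : Ideal (MvPolynomial σ K)} (hI : Hom I) (hJ : Hom J) : Hom (I ⊔ J) :=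
  (hom_iff _).2 (((hom_iff _).1 hI).sup ((hom_iff _).1 hJ))

lemma irr_isMaximal : (irr σ K).IsMaximal :=
  RingHom.ker_isMaximal_of_surjective _ (fun c => ⟨C c, by simp⟩)

lemma Hom.le_irr {P : Ideal (MvPolynomial σ K)} (hP : Hom P) (h : P ≠ ⊤) : P ≤ irr σ K := by
  intro f hf
  have h0 := hP f hf 0
  rw [homogeneousComponent_zero] at h0
  by_contra hne
  apply h
  have : coeff 0 f ≠ 0 := fun h1 => hne (by
    rw [irr, RingHom.mem_ker, constantCoeff_eq]; exact h1)
  exact Ideal.eq_top_of_isUnit_mem _ h0 ((IsUnit.mk0 _ this).map C)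

lemma mem_irr_of_one {f : MvPolynomial σ K} (hf : IsHomogeneous f 1) : f ∈ irr σ K := by
  rw [irr, RingHom.mem_ker, constantCoeff_eq]
  exact hf.coeff_eq_zero (by simp)

lemma sub_mem_of_algHom (φ : MvPolynomial σ K →ₐ[K] MvPolynomial σ K)
    (Q : Ideal (MvPolynomial σ K)) (h : ∀ j, X j - φ (X j) ∈ Q) (f : MvPolynomial σ K) :
    f - φ f ∈ Q := by
  have : (Ideal.Quotient.mkₐ K Q) = (Ideal.Quotient.mkₐ K Q).comp φ := by
    apply MvPolynomial.algHom_ext
    intro j
    simp only [Ideal.Quotient.mkₐ_eq_mk, AlgHom.comp_apply]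
    exact Ideal.Quotient.eq.2 (h j)
  have h2 := DFunLike.congr_fun this f
  simp only [Ideal.Quotient.mkₐ_eq_mk, AlgHom.comp_apply] at h2
  exact Ideal.Quotient.eq.1 h2

lemma irr_le_of_X {Q : Ideal (MvPolynomial σ K)} (h : ∀ j, X j ∈ Q) : irr σ K ≤ Q := by
  intro f hf
  have := sub_mem_of_algHom (aeval (fun _ => (0 : MvPolynomial σ K))) Q (by simpa using h) f
  rw [irr, RingHom.mem_ker] at hf
  have h2 : aeval (fun _ : σ => (0 : MvPolynomial σ K)) f = 0 := by
    have := aeval_zero' (R := K) (S₁ := MvPolynomial σ K) f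
    rw [this, hf, map_zero]
  rwa [h2, sub_zero] at this

lemma aeval_homogeneousComponent (g : σ → MvPolynomial σ K) (hg : ∀ j, IsHomogeneous (g j) 1)
    (n : ℕ) (f : MvPolynomial σ K) :
    aeval g (homogeneousComponent n f) = homogeneousComponent n (aeval g f) := by
  induction f using MvPolynomial.induction_on' with
  | monomial d c =>
    have h1 : IsHomogeneous (monomial d c) d.degree := isHomogeneous_monomial c rfl
    have h2 : IsHomogeneous (aeval g (monomial d c)) d.degree := by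
      simpa using h1.aeval g hg
    rw [homogeneousComponent_of_mem h1, homogeneousComponent_of_mem h2]
    split_ifs <;> simp
  | add p q hp hq => simp only [map_add, hp, hq]

lemma hom_ker (g : σ → MvPolynomial σ K) (hg : ∀ j, IsHomogeneous (g j) 1) :
    Hom (RingHom.ker (aeval g : MvPolynomial σ K →ₐ[K] MvPolynomial σ K)) := by
  intro f hf n
  rw [RingHom.mem_ker] at hf ⊢
  rw [aeval_homogeneousComponent g hg, hf, map_zero]

lemma aeval_scale (v : σ → K) (y : MvPolynomial σ K) {f : MvPolynomial σ K} {n : ℕ}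
    (hf : IsHomogeneous f n) : aeval (fun j => C (v j) * y) f = C (eval v f) * y ^ n := by
  classical
  conv_lhs => rw [f.as_sum]
  conv_rhs => rw [f.as_sum]
  rw [map_sum, map_sum, map_sum, Finset.sum_mul]
  refine Finset.sum_congr rfl fun m hm => ?_
  have hdeg : m.degree = n := by
    by_contra h
    exact (mem_support_iff.1 hm) (hf.coeff_eq_zero h)
  rw [aeval_monomial, eval_monomial, ← hdeg]
  simp only [Finsupp.prod, mul_pow, Finset.prod_mul_distrib, algebraMap_eq, map_mul, map_prod,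
    map_pow, Finset.prod_pow_eq_pow_sum, Finsupp.degree_apply]
  ring

/-- a point on a projective variety outside finitely many others -/
lemma exists_point [IsAlgClosed K] [Finite σ] {ι : Type*} (T : Finset ι)
    (Q : ι → Ideal (MvPolynomial σ K)) {P : Ideal (MvPolynomial σ K)} (hP : P.IsPrime)
    (hPh : Hom P) (hPd : DimGe P 1) (hQh : ∀ i ∈ T, Hom (Q i)) (hQ : ∀ i ∈ T, ¬ Q i ≤ P) :
    ∃ p : Ideal (MvPolynomial σ K), p.IsPrime ∧ Hom p ∧ P ≤ p ∧ DimGe p 1 ∧
      (∀ i ∈ T, ¬ Q i ≤ p) ∧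
      ∀ i ∈ T, ∀ R : Ideal (MvPolynomial σ K), R.IsPrime → Q i ≤ R →
        (∀ l, IsHomogeneous l 1 → l ∈ p → l ∈ R) → irr σ K ≤ R := by
  classical
  obtain ⟨g1, hg1, hg1'⟩ := exists_mem_notMem T Q hP hQ
  obtain ⟨g2, hg2, hg2'⟩ := Set.not_subset.1 (hPd.not_le irr_isMaximal)
  have hg : g1 * g2 ∉ P := fun h => (hP.mem_or_mem h).elim hg1 hg2'
  obtain ⟨M, hM, hPM, hgM⟩ := exists_maximal_notMem hP hg
  obtain ⟨v, rfl⟩ := isMaximal_iff_eq_vanishingIdeal_singleton.1 hM
  have hmem : ∀ f : MvPolynomial σ K, f ∈ vanishingIdeal K {v} ↔ eval v f = 0 := by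
    intro f
    rw [mem_vanishingIdeal_singleton_iff]
    rfl
  rw [hmem, map_mul, mul_eq_zero, not_or] at hgM
  obtain ⟨a, ha⟩ : ∃ a, v a ≠ 0 := by
    by_contra h
    push Not at h
    have hv : v = 0 := funext h
    apply hgM.2
    rw [hv, eval_zero]
    exact hg2
  set y : MvPolynomial σ K := C (v a)⁻¹ * X a with hy
  have hyh : IsHomogeneous y 1 := isHomogeneous_C_mul_X _ _
  have hgh : ∀ j, IsHomogeneous (C (v j) * y) 1 := fun j => hyh.C_mul _
  set φ : MvPolynomial σ K →ₐ[K] MvPolynomial σ K := aeval (fun j => C (v j) * y) with hφ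
  have hy0 : y ≠ 0 := mul_ne_zero (by simpa using ha) (X_ne_zero a)
  have hφy : φ y = y := by
    rw [hφ, aeval_scale v y hyh, hy]
    simp [ha]
  have hprime : (RingHom.ker φ).IsPrime := RingHom.ker_isPrime φ
  have hhom : Hom (RingHom.ker φ) := hom_ker _ hgh
  have hev : ∀ f, eval v (φ f) = eval v f := by
    intro f
    have : (aeval v : MvPolynomial σ K →ₐ[K] K).comp φ = aeval v := by
      apply MvPolynomial.algHom_ext
      intro j
      simp [hφ, hy, ha]
    exact DFunLike.congr_fun this f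
  have hQp : ∀ i ∈ T, ¬ Q i ≤ RingHom.ker φ := by
    intro i hi hle
    apply hgM.1
    have := hle (hg1' i hi)
    rw [RingHom.mem_ker] at this
    rw [← hev, this, map_zero]
  refine ⟨RingHom.ker φ, hprime, hhom, ?_, ?_, hQp, ?_⟩
  · refine hPh.le_of_forall fun f n hf hfP => ?_
    rw [RingHom.mem_ker, hφ, aeval_scale v y hf, (hmem f).1 (hPM hfP)]
    simp
  · refine dimGe_one_of_lt hprime irr_isMaximal.isPrime
      (lt_of_le_of_ne (hhom.le_irr hprime.ne_top) fun h => ?_)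
    have : y ∈ RingHom.ker φ := by rw [h]; exact mem_irr_of_one hyh
    rw [RingHom.mem_ker, hφy] at this
    exact hy0 this
  · intro i hi R hR hQR hV
    have h1 : ∀ j, X j - φ (X j) ∈ R := by
      intro j
      have e1 : φ (X j) = C (v j) * y := by simp [hφ]
      refine hV _ ((isHomogeneous_X K j).sub (by rw [e1]; exact hgh j)) ?_
      rw [RingHom.mem_ker, map_sub, e1, map_mul, hφy, algHom_C, algebraMap_eq, sub_self]
    have h2 := sub_mem_of_algHom φ R h1
    have h3 : ∃ f n, IsHomogeneous f n ∧ f ∈ Q i ∧ f ∉ RingHom.ker φ := by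
      by_contra h
      push Not at h
      exact hQp i hi ((hQh i hi).le_of_forall h)
    obtain ⟨f, n, hf, hfQ, hfp⟩ := h3
    have h4 : φ f ∈ R := by
      have := R.sub_mem (hQR hfQ) (h2 f)
      simpa using this
    rw [RingHom.mem_ker, hφ, aeval_scale v y hf] at hfp
    rw [hφ, aeval_scale v y hf] at h4
    have h5 : eval v f ≠ 0 := fun h => hfp (by rw [h]; simp)
    have h6 : y ∈ R := by
      rcases hR.mem_or_mem h4 with h | h
      · exact absurd (Ideal.eq_top_of_isUnit_mem _ h ((IsUnit.mk0 _ h5).map C)) hR.ne_top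
      · exact hR.mem_of_pow_mem _ h
    refine irr_le_of_X fun j => ?_
    have e1 : φ (X j) = C (v j) * y := by simp [hφ]
    have := R.add_mem (h1 j) (R.mul_mem_left (C (v j)) h6)
    rwa [e1, sub_add_cancel] at this

/-- a good hyperplane section -/
lemma exists_section [Infinite K] [Finite σ] {ι : Type*} (T : Finset ι)
    (P : ι → Ideal (MvPolynomial σ K)) (e : ι → ℕ) (p : Ideal (MvPolynomial σ K))
    (hP : ∀ i ∈ T, (P i).IsPrime ∧ Hom (P i) ∧ DimGe (P i) (e i + 1))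
    (hinc : ∀ i ∈ T, ∀ j ∈ T, i ≠ j → ¬ P i ≤ P j)
    (hp : ∀ i ∈ T, ∀ R : Ideal (MvPolynomial σ K), R.IsPrime → P i ≤ R →
        (∀ l, IsHomogeneous l 1 → l ∈ p → l ∈ R) → irr σ K ≤ R) :
    ∃ l, IsHomogeneous l 1 ∧ l ∈ p ∧ (∀ i ∈ T, l ∉ P i) ∧
      ∃ Q : ι → Ideal (MvPolynomial σ K), ∀ i ∈ T, 1 ≤ e i →
        (Q i).IsPrime ∧ Hom (Q i) ∧ P i ≤ Q i ∧ l ∈ Q i ∧ DimGe (Q i) (e i) ∧
          ∀ j ∈ T, j ≠ i → ¬ P j ≤ Q i := by
  classical
  -- the finite set of primes to avoid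
  let B : Set (Ideal (MvPolynomial σ K)) :=
    {R | (∃ i ∈ T, ∃ j ∈ T, R ∈ (P i ⊔ P j).minimalPrimes) ∧ ¬ irr σ K ≤ R}
  have hB : B.Finite := by
    refine Set.Finite.subset (s := ⋃ i ∈ T, ⋃ j ∈ T, (P i ⊔ P j).minimalPrimes) ?_ ?_
    · exact T.finite_toSet.biUnion fun i _ => T.finite_toSet.biUnion fun j _ =>
        Ideal.finite_minimalPrimes_of_isNoetherianRing _ _
    · rintro R ⟨⟨i, hi, j, hj, hR⟩, -⟩
      simp only [Set.mem_iUnion]
      exact ⟨i, hi, j, hj, hR⟩
  let V : Submodule K (MvPolynomial σ K) := homogeneousSubmodule σ K 1 ⊓ p.restrictScalars K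
  have : Finite B := hB
  obtain ⟨l, hl⟩ := Submodule.exists_forall_notMem_of_forall_ne_top
    (fun R : B => ((R : Ideal (MvPolynomial σ K)).restrictScalars K).comap V.subtype) (by
      rintro ⟨R, ⟨i, hi, j, hj, hR⟩, hirr⟩ htop
      apply hirr
      refine hp i hi R hR.1.1 (le_sup_left.trans hR.1.2) fun l hl1 hl2 => ?_
      have : (⟨l, hl1, hl2⟩ : V) ∈ (R.restrictScalars K).comap V.subtype := by
        rw [show (R.restrictScalars K).comap V.subtype = ⊤ from htop]; trivial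
      exact this)
  have hl' : ∀ R ∈ B, (l : MvPolynomial σ K) ∉ R := fun R hR => hl ⟨R, hR⟩
  have hlh : IsHomogeneous (l : MvPolynomial σ K) 1 := l.2.1
  refine ⟨l, hlh, l.2.2, ?_, ?_⟩
  · intro i hi
    refine hl' _ ⟨⟨i, hi, i, hi, ?_⟩, ((hP i hi).2.2.of_le (by omega)).not_le irr_isMaximal⟩
    have := (hP i hi).1
    rw [sup_idem, Ideal.minimalPrimes_eq_subsingleton_self]
    rfl
  · have key : ∀ i, ∃ Q : Ideal (MvPolynomial σ K), i ∈ T → 1 ≤ e i →
        Q.IsPrime ∧ Hom Q ∧ P i ≤ Q ∧ (l : MvPolynomial σ K) ∈ Q ∧ DimGe Q (e i) ∧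
          ∀ j ∈ T, j ≠ i → ¬ P j ≤ Q := by
      intro i
      by_cases hi : i ∈ T
      · obtain ⟨h1, h2, h3⟩ := hP i hi
        have h4 := DimGe.section (K := K) h1 irr_isMaximal (h2.le_irr h1.ne_top)
          (mem_irr_of_one hlh) h3
        obtain ⟨Q, hQ, hQd⟩ := h4.exists_minimal
        refine ⟨Q, fun _ he => ⟨hQ.1.1, ?_, le_sup_left.trans hQ.1.2, ?_, hQd, ?_⟩⟩
        · refine (h2.sup (hom_span ?_)).of_minimal hQ
          rintro f rfl
          exact ⟨1, hlh⟩
        · exact (le_sup_right.trans hQ.1.2) (Ideal.subset_span rfl)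
        · intro j hj hji hle
          have h5 := mem_minimalPrimes_sup_of_le h1 hQ (hinc j hj i hi hji) hle
          exact hl' Q ⟨⟨i, hi, j, hj, h5⟩, (hQd.of_le he).not_le irr_isMaximal⟩
            ((le_sup_right.trans hQ.1.2) (Ideal.subset_span rfl))
      · exact ⟨⊤, fun h => absurd h hi⟩
    choose Q hQ using key
    exact ⟨Q, hQ⟩

end Pool.Agent.H241Z.BT
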