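import Mathlib
import Pool.Agent.H241Z.BT.Hom

namespace Pool.Agent.H241Z.BT

open MvPolynomial Module

variable {K : Type*} [Field K] {σ : Type*} [Finite σ]

/-- dimension of the degree `d` part of an ideal -/
noncomputable def A (I : Ideal (MvPolynomial σ K)) (d : ℕ) : ℕ :=
  finrank K ↥(homogeneousSubmodule σ K d ⊓ I.restrictScalars K)

/-- dimension of the space of forms of degree `d` -/
noncomputable def N (σ K : Type*) [Field K] (d : ℕ) : ℕ := finrank K ↥(homogeneousSubmodule σ K d)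

instance finS (d : ℕ) : FiniteDimensional K ↥(homogeneousSubmodule σ K d) :=
  Module.Finite.iff_fg.2 (homogeneousSubmodule_fg σ K d)

instance finA (I : Ideal (MvPolynomial σ K)) (d : ℕ) :
    FiniteDimensional K ↥(homogeneousSubmodule σ K d ⊓ I.restrictScalars K) :=
  Submodule.finiteDimensional_of_le inf_le_left

lemma A_le_N (I : Ideal (MvPolynomial σ K)) (d : ℕ) : A I d ≤ N σ K d :=
  Submodule.finrank_mono inf_le_left

lemma A_lt_N {P : Ideal (MvPolynomial σ K)} (hP : P.IsPrime) (h : DimGe P 1) (d : ℕ) :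
    A P d + 1 ≤ N σ K d := by
  refine Submodule.finrank_lt_finrank_of_lt (lt_of_le_of_ne inf_le_left fun heq => ?_)
  refine h.not_le irr_isMaximal (irr_le_of_X fun j => ?_)
  have : (X j ^ d : MvPolynomial σ K) ∈ homogeneousSubmodule σ K d ⊓ P.restrictScalars K := by
    rw [heq]; exact isHomogeneous_X_pow j d
  exact hP.mem_of_pow_mem _ this.2

lemma step_ineq {J J' J1 : Ideal (MvPolynomial σ K)} {l : MvPolynomial σ K} (d : ℕ)
    (hl : IsHomogeneous l 1) (hl0 : l ≠ 0) (hJ : J ≤ J1) (hl1 : l ∈ J1)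
    (hJ' : ∀ f, l * f ∈ J → f ∈ J') :
    A J (d + 1) + N σ K d ≤ A J' d + A J1 (d + 1) := by
  let μ : MvPolynomial σ K →ₗ[K] MvPolynomial σ K := LinearMap.mulLeft K l
  have hμ : Function.Injective μ := fun a b h => mul_left_cancel₀ hl0 h
  let L : Submodule K (MvPolynomial σ K) := (homogeneousSubmodule σ K d).map μ
  let U : Submodule K (MvPolynomial σ K) := homogeneousSubmodule σ K (d + 1) ⊓ J.restrictScalars K
  have h1 : finrank K L = N σ K d := (Submodule.equivMapOfInjective μ hμ _).finrank_eq.symm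
  have hL : FiniteDimensional K L := inferInstance
  have h2 := Submodule.finrank_sup_add_finrank_inf_eq U L
  have h3 : finrank K ↥(U ⊔ L) ≤ A J1 (d + 1) := by
    refine Submodule.finrank_mono (sup_le (inf_le_inf_left _ fun x hx => hJ hx) ?_)
    rintro _ ⟨f, hf, rfl⟩
    refine ⟨?_, J1.mul_mem_right f hl1⟩
    have := hl.mul (show IsHomogeneous f d from hf)
    rwa [add_comm] at this
  have h4 : finrank K ↥(U ⊓ L) ≤ A J' d := by
    rw [A, (Submodule.equivMapOfInjective μ hμ
      (homogeneousSubmodule σ K d ⊓ J'.restrictScalars K)).finrank_eq]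
    refine Submodule.finrank_mono ?_
    rintro _ ⟨hx, f, hf, rfl⟩
    exact ⟨f, ⟨hf, hJ' f hx.2⟩, rfl⟩
  have h5 : A J (d + 1) = finrank K U := rfl
  omega

theorem main_bound [IsAlgClosed K] {ι : Type*} (a : ι → ℕ) (d : ℕ) : ∀ (s : ℕ) (T : Finset ι)
    (P : ι → Ideal (MvPolynomial σ K)) (e : ι → ℕ), ∑ i ∈ T, (e i + 1) = s →
    Set.InjOn a T → (∀ i ∈ T, a i ≤ d) →
    (∀ i ∈ T, (P i).IsPrime ∧ Hom (P i) ∧ DimGe (P i) (e i + 1)) →
    (∀ i ∈ T, ∀ j ∈ T, i ≠ j → ¬ P i ≤ P j) →
    A (T.inf P) d + ∑ i ∈ T, (d - a i + e i).choose (e i) ≤ N σ K d := by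
  classical
  -- the base case: all slots equal to `d`
  have base : ∀ (d : ℕ) (T : Finset ι) (P : ι → Ideal (MvPolynomial σ K)) (e : ι → ℕ),
      Set.InjOn a T → (∀ i ∈ T, a i = d) →
      (∀ i ∈ T, (P i).IsPrime ∧ Hom (P i) ∧ DimGe (P i) (e i + 1)) →
      A (T.inf P) d + ∑ i ∈ T, (d - a i + e i).choose (e i) ≤ N σ K d := by
    intro d T P e hinj ha hP
    rcases T.eq_empty_or_nonempty with rfl | ⟨i, hi⟩
    · simpa using A_le_N _ d
    · have hT : T = {i} := by
        refine Finset.eq_singleton_iff_unique_mem.2 ⟨hi, fun j hj => ?_⟩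
        exact hinj hj hi (by rw [ha j hj, ha i hi])
      have h1 := A_lt_N (hP i hi).1 ((hP i hi).2.2.of_le (by omega)) d
      have h2 := ha i hi
      rw [hT]
      simpa [h2] using h1
  induction d with
  | zero =>
    intro s T P e _ hinj ha hP _
    exact base 0 T P e hinj (fun i hi => Nat.le_zero.1 (ha i hi)) hP
  | succ d ihd =>
    intro s
    induction s using Nat.strong_induction_on with
    | _ s ihs =>
    intro T P e hs hinj ha hP hinc
    by_cases hall : ∀ i ∈ T, a i = d + 1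
    · exact base _ T P e hinj hall hP
    push Not at hall
    obtain ⟨i1, hi1, hi1'⟩ := hall
    set T' := T.filter (fun i => a i ≠ d + 1) with hT'
    have hT'sub : ∀ i ∈ T', i ∈ T := fun i hi => (Finset.mem_filter.1 hi).1
    have hi1T' : i1 ∈ T' := Finset.mem_filter.2 ⟨hi1, hi1'⟩
    obtain ⟨p, hp1, hp2⟩ : ∃ p : Ideal (MvPolynomial σ K),
        (∀ i ∈ T, a i = d + 1 → p.IsPrime ∧ Hom p ∧ P i ≤ p ∧ DimGe p 1 ∧ ∀ j ∈ T', ¬ P j ≤ p) ∧
        ∀ i ∈ T', ∀ R : Ideal (MvPolynomial σ K), R.IsPrime → P i ≤ R →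
          (∀ l, IsHomogeneous l 1 → l ∈ p → l ∈ R) → irr σ K ≤ R := by
      by_cases hex : ∃ i0 ∈ T, a i0 = d + 1
      · obtain ⟨i0, hi0, hi0'⟩ := hex
        obtain ⟨p, q1, q2, q3, q4, q5, q6⟩ := exists_point T' P (hP i0 hi0).1 (hP i0 hi0).2.1
          ((hP i0 hi0).2.2.of_le (by omega)) (fun i hi => (hP i (hT'sub i hi)).2.1)
          (fun i hi => hinc i (hT'sub i hi) i0 hi0 (fun h => (Finset.mem_filter.1 hi).2 (by
            rw [h, hi0'])))
        refine ⟨p, fun i hi hi' => ?_, q6⟩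
        have : i = i0 := hinj hi hi0 (by rw [hi', hi0'])
        rw [this]
        exact ⟨q1, q2, q3, q4, q5⟩
      · refine ⟨⊤, fun i hi hi' => absurd ⟨i, hi, hi'⟩ hex, fun i _ R _ _ h => ?_⟩
        exact irr_le_of_X fun j => h _ (isHomogeneous_X K j) trivial
    obtain ⟨l, hl1, hl2, hl3, Q, hQ⟩ := exists_section T' P e p (fun i hi => hP i (hT'sub i hi))
      (fun i hi j hj => hinc i (hT'sub i hi) j (hT'sub j hj)) hp2
    set T1 := T.filter (fun i => a i = d + 1 ∨ 1 ≤ e i) with hT1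
    let Q' : ι → Ideal (MvPolynomial σ K) := fun i => if a i = d + 1 then p else Q i
    let e' : ι → ℕ := fun i => if a i = d + 1 then 0 else e i - 1
    have hcase : ∀ i ∈ T1, (i ∈ T ∧ a i = d + 1 ∧ Q' i = p ∧ e' i = 0) ∨
        (i ∈ T' ∧ 1 ≤ e i ∧ Q' i = Q i ∧ e' i + 1 = e i) := by
      intro i hi
      obtain ⟨hiT, hi2⟩ := Finset.mem_filter.1 hi
      by_cases h : a i = d + 1
      · exact Or.inl ⟨hiT, h, if_pos h, if_pos h⟩
      · have h2 : 1 ≤ e i := hi2.resolve_left h
        refine Or.inr ⟨Finset.mem_filter.2 ⟨hiT, h⟩, h2, if_neg h, ?_⟩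
        simp only [e', if_neg h]; omega
    have IH1 := ihd _ T' P e rfl (hinj.mono (fun i hi => hT'sub i hi))
      (fun i hi => by
        have h1 := ha i (hT'sub i hi)
        have h2 := (Finset.mem_filter.1 hi).2
        omega)
      (fun i hi => hP i (hT'sub i hi))
      (fun i hi j hj => hinc i (hT'sub i hi) j (hT'sub j hj))
    have IH2 := ihs (∑ i ∈ T1, (e' i + 1)) (by
        rw [← hs, hT1, Finset.sum_filter]
        refine Finset.sum_lt_sum (fun i _ => ?_) ⟨i1, hi1, ?_⟩
        · simp only [e']; split_ifs <;> omega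
        · simp only [e']; split_ifs <;> omega) T1 Q' e' rfl
      (hinj.mono (fun i hi => (Finset.mem_filter.1 hi).1))
      (fun i hi => ha i (Finset.mem_filter.1 hi).1)
      (fun i hi => by
        rcases hcase i hi with ⟨h1, h2, h3, h4⟩ | ⟨h1, h2, h3, h4⟩
        · rw [h3, h4]
          obtain ⟨q1, q2, -, q4, -⟩ := hp1 i h1 h2
          exact ⟨q1, q2, q4⟩
        · rw [h3, h4]
          obtain ⟨q1, q2, -, -, q5, -⟩ := hQ i h1 h2
          exact ⟨q1, q2, q5⟩)
      (fun i hi j hj hij => by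
        rcases hcase i hi with ⟨h1, h2, h3, h4⟩ | ⟨h1, h2, h3, h4⟩ <;>
          rcases hcase j hj with ⟨g1, g2, g3, g4⟩ | ⟨g1, g2, g3, g4⟩
        · exact absurd (hinj h1 g1 (by rw [h2, g2])) hij
        · rw [h3, g3]
          obtain ⟨q1, -, q3, -, q5, -⟩ := hQ j g1 g2
          intro hle
          exact (q5.of_le g2).not_le irr_isMaximal (hp2 j g1 _ q1 q3 fun l _ hl => hle hl)
        · rw [h3, g3]
          obtain ⟨-, -, q3, -, -, -⟩ := hQ i h1 h2
          intro hle
          exact (hp1 j g1 g2).2.2.2.2 i h1 (q3.trans hle)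
        · rw [h3, g3]
          obtain ⟨-, -, q3, -, -, -⟩ := hQ i h1 h2
          intro hle
          exact (hQ j g1 g2).2.2.2.2.2 i h1 hij (q3.trans hle))
    have hstep := step_ineq (J := T.inf P) (J' := T'.inf P) (J1 := T1.inf Q') d hl1
      (fun h => hl3 i1 hi1T' (by rw [h]; exact zero_mem _))
      (Finset.le_inf fun i hi => by
        rcases hcase i hi with ⟨h1, h2, h3, h4⟩ | ⟨h1, h2, h3, h4⟩
        · rw [h3]; exact (Finset.inf_le h1).trans (hp1 i h1 h2).2.2.1
        · rw [h3]; exact (Finset.inf_le (hT'sub i h1)).trans (hQ i h1 h2).2.2.1)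
      (by
        rw [Submodule.mem_finsetInf]
        intro i hi
        rcases hcase i hi with ⟨h1, h2, h3, h4⟩ | ⟨h1, h2, h3, h4⟩
        · rw [h3]; exact hl2
        · rw [h3]; exact (hQ i h1 h2).2.2.2.1)
      (fun f hf => by
        rw [Submodule.mem_finsetInf] at hf ⊢
        intro i hi
        exact ((hP i (hT'sub i hi)).1.mem_or_mem (hf i (hT'sub i hi))).resolve_left (hl3 i hi))
    have hsum : ∑ i ∈ T, (d + 1 - a i + e i).choose (e i) ≤
        ∑ i ∈ T', (d - a i + e i).choose (e i) + ∑ i ∈ T1, (d + 1 - a i + e' i).choose (e' i) := by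
      rw [hT', hT1, Finset.sum_filter, Finset.sum_filter, ← Finset.sum_add_distrib]
      refine Finset.sum_le_sum fun i hi => ?_
      have h1 := ha i hi
      by_cases h : a i = d + 1
      · simp [e', h]
      · have h2 : d + 1 - a i = (d - a i) + 1 := by omega
        rcases Nat.eq_zero_or_pos (e i) with h3 | h3
        · simp [h, h3]
        · obtain ⟨c, hc⟩ : ∃ c, e i = c + 1 := ⟨e i - 1, by omega⟩
          have h4 : 1 ≤ c + 1 := by omega
          simp only [e', h, hc, h2, ne_eq, not_false_eq_true, if_true, h4, or_true, if_false,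
            Nat.add_sub_cancel]
          rw [show d - a i + 1 + (c + 1) = (d - a i + (c + 1)) + 1 by ring, Nat.choose_succ_succ',
            show d - a i + 1 + c = d - a i + (c + 1) by ring]
          omega
    omega

end Pool.Agent.H241Z.BT
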