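import Mathlib
import Pool.Agent.H241Z.BT.Defs
import Pool.Agent.H241Z.BT.Main

namespace Pool.Agent.H241Z.BT

open MvPolynomial Module Finset

lemma mem_Lam {d m : ℕ} {μ : Fin (m + 1) → ℕ} : μ ∈ Lam d m ↔ ∑ t, μ t = d := by
  simp [Lam]

lemma card_piAntidiag_le {ι : Type*} [Fintype ι] [DecidableEq ι] (s : Finset ι) (n : ℕ) :
    (piAntidiag s n).card = (s.card + n - 1).choose n := by
  rw [← card_finsuppAntidiag_nat_eq_choose]
  refine Finset.card_bij (fun f _ => Finsupp.equivFunOnFinite.symm f) ?_ ?_ ?_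
  · intro f hf
    rw [mem_piAntidiag] at hf
    rw [mem_finsuppAntidiag]
    refine ⟨by simpa using hf.1, fun i hi => hf.2 i (by simpa using hi)⟩
  · intro f _ g _ h
    exact Finsupp.equivFunOnFinite.symm.injective h
  · intro g hg
    rw [mem_finsuppAntidiag] at hg
    refine ⟨g, ?_, by simp⟩
    rw [mem_piAntidiag]
    exact ⟨hg.1, fun i hi => hg.2 (by simpa using hi)⟩

lemma card_Lam (d m : ℕ) : (Lam d m).card = (m + d).choose d := by
  rw [Lam, card_piAntidiag_le]
  simp only [card_univ, Fintype.card_fin]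
  congr 1
  omega

lemma N_le (K : Type*) [Field K] (d m : ℕ) : N (Fin (m + 1)) K d ≤ (Lam d m).card := by
  classical
  let s : Finset (MvPolynomial (Fin (m + 1)) K) :=
    (Lam d m).image fun μ => monomial (Finsupp.equivFunOnFinite.symm μ) 1
  have h1 : homogeneousSubmodule (Fin (m + 1)) K d ≤
      Submodule.span K (s : Set (MvPolynomial (Fin (m + 1)) K)) := by
    intro f hf
    rw [f.as_sum]
    refine Submodule.sum_mem _ fun μ hμ => ?_
    have hdeg : μ.degree = d := by
      by_contra h
      exact (mem_support_iff.1 hμ) (IsHomogeneous.coeff_eq_zero hf h)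
    have : monomial μ (coeff μ f) = coeff μ f • (monomial μ (1 : K)) := by
      rw [smul_monomial, smul_eq_mul, mul_one]
    rw [this]
    refine Submodule.smul_mem _ _ (Submodule.subset_span ?_)
    simp only [s, coe_image, Set.mem_image, mem_coe]
    refine ⟨μ, ?_, by simp⟩
    rw [mem_Lam, ← hdeg, Finsupp.degree_eq_sum]
  calc N (Fin (m + 1)) K d ≤ finrank K (Submodule.span K (s : Set (MvPolynomial (Fin (m + 1)) K))) :=
        Submodule.finrank_mono h1
    _ ≤ s.card := finrank_span_finset_le_card s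
    _ ≤ (Lam d m).card := card_image_le

open Classical in
/-- number of elements of `Λ` that are lexicographically at least `ν` -/
noncomputable def rank (d : ℕ) {m : ℕ} (ν : Fin (m + 1) → ℕ) : ℕ :=
  ((Lam d m).filter fun μ => toLex ν ≤ toLex μ).card

lemma nu_spec {d m r : ℕ} (h1 : 1 ≤ r) (h2 : r ≤ (m + d).choose d) :
    nu d m r ∈ Lam d m ∧ rank d (nu d m r) = r := by
  classical
  set l := lamList d m with hl
  have hlen : l.length = (m + d).choose d := by
    rw [hl, lamList, length_sort, card_map, card_Lam]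
  have hi : r - 1 < l.length := by omega
  have hnu : toLex (nu d m r) = l[r - 1] := by
    rw [nu, toLex_ofLex, ← hl, List.getD_eq_getElem _ _ hi]
  have hmem : ∀ x, x ∈ l ↔ ofLex x ∈ Lam d m := by
    intro x
    rw [hl, lamList, mem_sort, mem_map_equiv]
    rfl
  have hsorted : l.SortedGT := sortedGT_sort _
  have hanti := hsorted.strictAnti_get
  refine ⟨?_, ?_⟩
  · have := (hmem _).1 (List.getElem_mem hi)
    rwa [← hnu] at this
  · rw [rank]
    symm
    conv_lhs => rw [← card_range r]
    refine Finset.card_bij (fun j hj => ofLex (l[j]'(by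
      have := mem_range.1 hj; omega))) ?_ ?_ ?_
    · intro j hj
      have hj' := mem_range.1 hj
      rw [mem_filter]
      refine ⟨(hmem _).1 (List.getElem_mem _), ?_⟩
      rw [hnu, toLex_ofLex]
      exact hanti.antitone (a := ⟨j, by omega⟩) (b := ⟨r - 1, hi⟩) (by
        rw [Fin.le_def]; simp; omega)
    · intro i hi j hj h
      have h' : l.get ⟨i, by have := mem_range.1 hi; omega⟩ =
          l.get ⟨j, by have := mem_range.1 hj; omega⟩ := ofLex.injective h
      have := hanti.injective h'
      exact congrArg Fin.val this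
    · intro μ hμ
      rw [mem_filter] at hμ
      obtain ⟨j, hj, hjμ⟩ := List.getElem_of_mem ((hmem (toLex μ)).2 hμ.1)
      have hle : l.get ⟨r - 1, hi⟩ ≤ l.get ⟨j, hj⟩ := by
        have := hμ.2
        rw [hnu, ← hjμ] at this
        exact this
      rw [hanti.le_iff_ge, Fin.le_def] at hle
      simp only at hle
      refine ⟨j, mem_range.2 (by omega), ?_⟩
      rw [hjμ]; rfl

/-- partial sums -/
def ps {m : ℕ} (ν : Fin (m + 1) → ℕ) (j : Fin (m + 1)) : ℕ := ∑ t ∈ Iio j, ν t

lemma sum_split {m : ℕ} (μ : Fin (m + 1) → ℕ) (j : Fin (m + 1)) :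
    ∑ t, μ t = ps μ j + μ j + ∑ t ∈ Ioi j, μ t := by
  have h1 : (univ : Finset (Fin (m + 1))) = (Iio j ∪ {j}) ∪ Ioi j := by
    ext t
    simp only [mem_univ, mem_union, mem_Iio, mem_singleton, mem_Ioi, true_iff]
    rcases lt_trichotomy t j with h | h | h <;> simp [h]
  rw [h1, sum_union, sum_union, sum_singleton, ps]
  · simp
  · rw [disjoint_left]
    intro t ht ht'
    simp only [mem_union, mem_Iio, mem_singleton, mem_Ioi] at ht ht'
    rcases ht with h | h
    · exact lt_asymm h ht'
    · exact absurd ht' (by rw [h]; exact lt_irrefl _)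

lemma ps_add_le {m : ℕ} (ν : Fin (m + 1) → ℕ) {j j' : Fin (m + 1)} (h : j < j') :
    ps ν j + ν j ≤ ps ν j' := by
  have : ps ν j + ν j = ∑ t ∈ insert j (Iio j), ν t := by
    rw [sum_insert (by simp), ps, add_comm]
  rw [this, ps]
  refine sum_le_sum_of_subset fun t ht => ?_
  simp only [mem_insert, mem_Iio] at ht ⊢
  rcases ht with rfl | ht
  · exact h
  · exact ht.trans h

lemma card_fib {d m : ℕ} (ν : Fin (m + 1) → ℕ) (j : Fin m) (k : ℕ) :
    ((Lam d m).filter fun μ => (∀ t < j.castSucc, μ t = ν t) ∧ μ j.castSucc = k).card ≤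
      (d - (ps ν j.castSucc + k) + (m - 1 - j)).choose (m - 1 - j) := by
  classical
  have hcard : (Ioi j.castSucc).card = m - j := by simp
  have hj := j.2
  calc _ ≤ (piAntidiag (Ioi j.castSucc) (d - (ps ν j.castSucc + k))).card := by
        refine card_le_card_of_injOn (fun μ t => if j.castSucc < t then μ t else 0) ?_ ?_
        · intro μ hμ
          simp only [coe_filter, Set.mem_ofPred_eq, mem_Lam] at hμ
          obtain ⟨h1, h2, h3⟩ := hμ
          simp only [mem_coe, mem_piAntidiag, mem_Ioi]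
          refine ⟨?_, fun t ht => by by_contra h; exact ht (if_neg h)⟩
          have h4 := sum_split μ j.castSucc
          have h5 : ps μ j.castSucc = ps ν j.castSucc :=
            sum_congr rfl fun t ht => h2 t (mem_Iio.1 ht)
          have h6 : ∑ t ∈ Ioi j.castSucc, (if j.castSucc < t then μ t else 0) =
              ∑ t ∈ Ioi j.castSucc, μ t := sum_congr rfl fun t ht => if_pos (mem_Ioi.1 ht)
          omega
        · intro μ hμ μ' hμ' h
          simp only [coe_filter, Set.mem_ofPred_eq] at hμ hμ'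
          funext t
          rcases lt_trichotomy t j.castSucc with h1 | h1 | h1
          · rw [hμ.2.1 t h1, hμ'.2.1 t h1]
          · rw [h1, hμ.2.2, hμ'.2.2]
          · have := congrFun h t
            simpa [h1] using this
    _ = _ := by
        rw [card_piAntidiag_le, hcard]
        rw [show m - j + (d - (ps ν j.castSucc + k)) - 1 =
          d - (ps ν j.castSucc + k) + (m - 1 - j) by omega]
        exact Nat.choose_symm_add

/-- the index set of the components used in the upper bound -/
def idx {m : ℕ} (d : ℕ) (ν : Fin (m + 1) → ℕ) (j0 : Fin m) : Finset (Fin m × ℕ) :=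
  ((univ : Finset (Fin m)) ×ˢ range (d + 1)).filter
    fun x => (x.1 < j0 ∧ x.2 < ν x.1.castSucc) ∨ (x.1 = j0 ∧ x.2 ≤ ν x.1.castSucc)

lemma mem_idx {m d : ℕ} {ν : Fin (m + 1) → ℕ} (hν : ν ∈ Lam d m) {j0 : Fin m} {x : Fin m × ℕ} :
    x ∈ idx d ν j0 ↔ (x.1 < j0 ∧ x.2 < ν x.1.castSucc) ∨ (x.1 = j0 ∧ x.2 ≤ ν x.1.castSucc) := by
  have h1 := sum_split ν x.1.castSucc
  rw [mem_Lam.1 hν] at h1
  simp only [idx, mem_filter, mem_product, mem_univ, true_and, mem_range, and_iff_right_iff_imp]
  rintro (h | h) <;> omega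

lemma count_bound {m d : ℕ} {ν : Fin (m + 1) → ℕ} (hν : ν ∈ Lam d m) (j0 : Fin m) :
    (Lam d m).card + 1 ≤ rank d ν + ∑ x ∈ idx d ν j0,
      (d - (ps ν x.1.castSucc + x.2) + (m - 1 - x.1)).choose (m - 1 - x.1) := by
  classical
  set U := (Lam d m).filter fun μ => toLex ν ≤ toLex μ with hU
  set D := (Lam d m).filter fun μ => toLex μ ≤ toLex ν with hD
  have h1 : (Lam d m).card + 1 ≤ U.card + D.card := by
    rw [← card_union_add_card_inter]
    refine add_le_add (card_le_card fun μ hμ => ?_) (card_pos.2 ⟨ν, ?_⟩)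
    · simp only [hU, hD, mem_union, mem_filter, hμ, true_and]
      exact le_total _ _
    · simp [hU, hD, hν]
  have h2 : D ⊆ (idx d ν j0).biUnion fun x => (Lam d m).filter
      fun μ => (∀ t < x.1.castSucc, μ t = ν t) ∧ μ x.1.castSucc = x.2 := by
    intro μ hμ
    rw [hD, mem_filter] at hμ
    rw [mem_biUnion]
    by_cases hall : ∀ t < j0.castSucc, μ t = ν t
    · refine ⟨(j0, μ j0.castSucc), (mem_idx hν).2 (Or.inr ⟨rfl, ?_⟩), ?_⟩
      · exact Pi.apply_le_of_toLex hμ.2 hall
      · rw [mem_filter]; exact ⟨hμ.1, hall, rfl⟩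
    · rcases hμ.2.lt_or_eq with hlt | heq
      · obtain ⟨i, hi1, hi2⟩ := hlt
        have hi : i < j0.castSucc := by
          by_contra hcon
          exact hall fun t ht => hi1 t (lt_of_lt_of_le ht (not_lt.1 hcon))
        have hil : i ≠ Fin.last m := (hi.trans (Fin.castSucc_lt_last j0)).ne
        obtain ⟨j, rfl⟩ := Fin.exists_castSucc_eq.2 hil
        refine ⟨(j, μ j.castSucc), (mem_idx hν).2 (Or.inl ⟨Fin.castSucc_lt_castSucc_iff.1 hi, hi2⟩), ?_⟩
        rw [mem_filter]; exact ⟨hμ.1, hi1, rfl⟩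
      · exact absurd (fun t _ => congrFun (toLex.injective heq) t) hall
  have h3 := (card_le_card h2).trans card_biUnion_le
  have h4 := h3.trans (sum_le_sum fun x _ => card_fib (d := d) ν x.1 x.2)
  have h5 : rank d ν = U.card := by rw [rank, hU]
  omega

end Pool.Agent.H241Z.BT
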