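import Mathlib
import Pool.Agent.H241Z.BT.Comb

namespace Pool.Agent.H241Z.BT

open MvPolynomial Module Finset

attribute [local instance] MvPolynomial.algebraMvPolynomial

lemma lift_prime {k K : Type} [Field k] [Field K] [Algebra k K] [Algebra.IsIntegral k K]
    {σ ι : Type} (F : ι → MvPolynomial σ k) (hF : ∀ j, ∃ n, IsHomogeneous (F j) n)
    {P : Ideal (MvPolynomial σ k)} (hP : P ∈ (Ideal.span (Set.range F)).minimalPrimes) {e : ℕ}
    (he : DimGe P e) :
    ∃ Q : Ideal (MvPolynomial σ K), Q.IsPrime ∧ Hom Q ∧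
      (∀ j, MvPolynomial.map (algebraMap k K) (F j) ∈ Q) ∧
      Q.comap (algebraMap (MvPolynomial σ k) (MvPolynomial σ K)) = P ∧ DimGe Q e := by
  have hPp : P.IsPrime := hP.1.1
  have hinj : Function.Injective (algebraMap (MvPolynomial σ k) (MvPolynomial σ K)) :=
    MvPolynomial.map_injective _ (algebraMap k K).injective
  obtain ⟨Q, -, hQ, hQP⟩ := Ideal.exists_ideal_over_prime_of_isIntegral
    (S := MvPolynomial σ K) P ⊥ (by
      rw [← RingHom.ker_eq_comap_bot, (RingHom.injective_iff_ker_eq_bot _).mp hinj]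
      exact bot_le)
  have hQd : DimGe Q e := by
    have hlo : Q.LiesOver P := ⟨hQP.symm⟩
    unfold DimGe at he ⊢
    refine he.trans (Pool.Agent.Helper834.EC.ringKrullDim_ge_of_integral ?_)
    exact FaithfulSMul.algebraMap_injective _ _
  obtain ⟨Q', h1, h2, h3, h4⟩ := exists_core hQ
  have h5 : ∀ j, MvPolynomial.map (algebraMap k K) (F j) ∈ Q' := by
    intro j
    obtain ⟨n, hn⟩ := hF j
    refine h4 _ n (hn.map _) ?_
    have : F j ∈ P := hP.1.2 (Ideal.subset_span ⟨j, rfl⟩)
    rw [← hQP] at this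
    exact this
  refine ⟨Q', h1, h2, h5, ?_, hQd.mono h3⟩
  have h6 : Q'.comap (algebraMap (MvPolynomial σ k) (MvPolynomial σ K)) ≤ P := by
    rw [← hQP]; exact Ideal.comap_mono h3
  refine le_antisymm h6 (hP.2 ⟨Ideal.comap_isPrime _ _, ?_⟩ h6)
  rw [Ideal.span_le]
  rintro _ ⟨j, rfl⟩
  exact h5 j

lemma linearIndependent_map {k K : Type} [Field k] [Field K] [Algebra k K]
    {σ ι : Type} {F : ι → MvPolynomial σ k} (hF : LinearIndependent k F) :
    LinearIndependent K (fun j => MvPolynomial.map (algebraMap k K) (F j)) := by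
  have h1 := Module.Flat.linearIndependent_one_tmul (S := K) hF
  have h2 := h1.map' (MvPolynomial.algebraTensorAlgEquiv (σ := σ) k K).toLinearEquiv.toLinearMap
    (LinearEquiv.ker _)
  have h3 : (fun j => MvPolynomial.map (algebraMap k K) (F j)) =
      ⇑(MvPolynomial.algebraTensorAlgEquiv (σ := σ) k K).toLinearEquiv.toLinearMap ∘
        fun x => (1 : K) ⊗ₜ[k] F x := by
    funext j
    simp
  rw [h3]
  exact h2

theorem upper {k : Type} [Field k] {m d r : ℕ} {ν : Fin (m + 1) → ℕ} (hν : ν ∈ Lam d m)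
    (hr : rank d ν = r) {F : Fin r → MvPolynomial (Fin (m + 1)) k} (hF : F ∈ Fam k m d r) :
    toLex (dimType F) ≤ toLex (fun i : Fin m => ν i.castSucc) := by
  classical
  by_contra hcon
  obtain ⟨j0, h1, h2⟩ := not_le.1 hcon
  have h1' : ∀ j < j0, ν j.castSucc = dimType F j := h1
  have h2' : ν j0.castSucc < dimType F j0 := h2
  let K := AlgebraicClosure k
  let I := Ideal.span (Set.range F)
  let Mn : Fin m → Set (Ideal (MvPolynomial (Fin (m + 1)) k)) := fun i =>
    {P | P ∈ I.minimalPrimes ∧ P.height = (((i : ℕ) + 1 : ℕ) : ℕ∞)}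
  have hMn : ∀ i, (Mn i).Finite := fun i =>
    (Ideal.finite_minimalPrimes_of_isNoetherianRing _ I).subset fun P hP => hP.1
  have henum : ∀ i, ∃ g : ℕ → Ideal (MvPolynomial (Fin (m + 1)) k),
      (∀ a < dimType F i, g a ∈ Mn i) ∧ ∀ a < dimType F i, ∀ b < dimType F i, g a = g b → a = b := by
    intro i
    have hc : (hMn i).toFinset.card = dimType F i := (Set.ncard_eq_toFinset_card _ (hMn i)).symm
    let φ := (hMn i).toFinset.equivFinOfCardEq hc
    refine ⟨fun a => if h : a < dimType F i then (φ.symm ⟨a, h⟩).1 else ⊤, fun a ha => ?_,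
      fun a ha b hb hab => ?_⟩
    · simp only [dif_pos ha]
      exact (Set.Finite.mem_toFinset _).1 (φ.symm ⟨a, ha⟩).2
    · simp only [dif_pos ha, dif_pos hb] at hab
      have := φ.symm.injective (Subtype.ext hab)
      exact congrArg Fin.val this
  choose g hg1 hg2 using henum
  have hlt : ∀ x ∈ idx d ν j0, x.2 < dimType F x.1 := by
    intro x hx
    rcases (mem_idx hν).1 hx with ⟨ha, hb⟩ | ⟨ha, hb⟩
    · rw [← h1' _ ha]; exact hb
    · rw [ha] at hb ⊢; omega
  have hlift : ∀ x : Fin m × ℕ, ∃ Q : Ideal (MvPolynomial (Fin (m + 1)) K), x ∈ idx d ν j0 →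
      Q.IsPrime ∧ Hom Q ∧ (∀ j, MvPolynomial.map (algebraMap k K) (F j) ∈ Q) ∧
      Q.comap (algebraMap (MvPolynomial (Fin (m + 1)) k) (MvPolynomial (Fin (m + 1)) K)) =
        g x.1 x.2 ∧ DimGe Q (m - 1 - x.1 + 1) := by
    intro x
    by_cases hx : x ∈ idx d ν j0
    · obtain ⟨q1, q2⟩ := hg1 x.1 x.2 (hlt x hx)
      have q3 := dimGe_of_height _ q1.1.1 q2
      have hx1 := x.1.2
      obtain ⟨Q, hQ⟩ := lift_prime (K := K) F (fun j => ⟨d, hF.2 j⟩) q1
        (q3.of_le (e' := m - 1 - x.1 + 1) (by omega))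
      exact ⟨Q, fun _ => hQ⟩
    · exact ⟨⊤, fun h => absurd h hx⟩
  choose Q hQ using hlift
  have hmain := main_bound (K := K) (fun x : Fin m × ℕ => ps ν x.1.castSucc + x.2) d _
    (idx d ν j0) Q (fun x => m - 1 - x.1) rfl
    (by
      have key : ∀ x ∈ idx d ν j0, ∀ y ∈ idx d ν j0, x.1 < y.1 →
          ps ν x.1.castSucc + x.2 < ps ν y.1.castSucc + y.2 := by
        intro x hx y hy hxy
        have q1 := ps_add_le ν (Fin.castSucc_lt_castSucc_iff.2 hxy)
        rcases (mem_idx hν).1 hx with ⟨ha, hb⟩ | ⟨ha, hb⟩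
        · omega
        · exfalso
          rcases (mem_idx hν).1 hy with ⟨hc, -⟩ | ⟨hc, -⟩
          · rw [ha] at hxy; exact lt_asymm hxy hc
          · rw [ha, hc] at hxy; exact lt_irrefl _ hxy
      intro x hx y hy hxy
      simp only at hxy
      rcases lt_trichotomy x.1 y.1 with h | h | h
      · have := key x hx y hy h; omega
      · refine Prod.ext h ?_
        rw [h] at hxy; omega
      · have := key y hy x hx h; omega)
    (by
      intro x hx
      have q1 := sum_split ν x.1.castSucc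
      rw [mem_Lam.1 hν] at q1
      rcases (mem_idx hν).1 hx with ⟨-, hb⟩ | ⟨-, hb⟩ <;> omega)
    (fun x hx => ⟨(hQ x hx).1, (hQ x hx).2.1, (hQ x hx).2.2.2.2⟩)
    (by
      intro x hx y hy hxy hle
      apply hxy
      have q1 : g x.1 x.2 ≤ g y.1 y.2 := by
        rw [← (hQ x hx).2.2.2.1, ← (hQ y hy).2.2.2.1]
        exact Ideal.comap_mono hle
      obtain ⟨a1, a2⟩ := hg1 x.1 x.2 (hlt x hx)
      obtain ⟨b1, b2⟩ := hg1 y.1 y.2 (hlt y hy)
      have q2 : g x.1 x.2 = g y.1 y.2 := le_antisymm q1 (b1.2 a1.1 q1)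
      rw [q2, b2] at a2
      have q3 : (y.1 : ℕ) + 1 = x.1 + 1 := by exact_mod_cast a2
      have q4 : x.1 = y.1 := Fin.ext (by omega)
      refine Prod.ext q4 (hg2 x.1 _ (hlt x hx) _ (by rw [q4]; exact hlt y hy) ?_)
      rw [q2, q4])
  have hrA : r ≤ A ((idx d ν j0).inf Q) d := by
    let W := homogeneousSubmodule (Fin (m + 1)) K d ⊓ ((idx d ν j0).inf Q).restrictScalars K
    have hW : ∀ j, MvPolynomial.map (algebraMap k K) (F j) ∈ W := by
      intro j
      refine ⟨(hF.2 j).map _, ?_⟩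
      change _ ∈ (idx d ν j0).inf Q
      rw [Submodule.mem_finsetInf]
      exact fun x hx => (hQ x hx).2.2.1 j
    have hli : LinearIndependent K (fun j => (⟨_, hW j⟩ : W)) :=
      LinearIndependent.of_comp W.subtype (linearIndependent_map (K := K) hF.1)
    have := hli.fintype_card_le_finrank
    rw [Fintype.card_fin] at this
    exact this
  have hc := count_bound hν j0
  have hN := N_le K d m
  omega

end Pool.Agent.H241Z.BT
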