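import Mathlib
import Pool.Agent.H241Z.BT.Upper

namespace Pool.Agent.H241Z.BT

open MvPolynomial Module Finset

variable {k : Type} [Field k] {m : ℕ}

/-- the linear form `x_j - c x_last` -/
noncomputable def lin (j : Fin m) (c : k) : MvPolynomial (Fin (m + 1)) k :=
  X j.castSucc - C c * X (Fin.last m)

/-- distraction of the monomial `x^μ` -/
noncomputable def G (c : ℕ → k) (μ : Fin (m + 1) → ℕ) : MvPolynomial (Fin (m + 1)) k :=
  (∏ j : Fin m, ∏ a ∈ range (μ j.castSucc), lin j (c a)) * X (Fin.last m) ^ μ (Fin.last m)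

lemma lin_hom (j : Fin m) (c : k) : IsHomogeneous (lin j c) 1 :=
  (isHomogeneous_X k _).sub (isHomogeneous_C_mul_X _ _)

lemma G_hom (c : ℕ → k) {d : ℕ} {μ : Fin (m + 1) → ℕ} (hμ : μ ∈ Lam d m) :
    IsHomogeneous (G c μ) d := by
  have h1 : IsHomogeneous (∏ j : Fin m, ∏ a ∈ range (μ j.castSucc), lin j (c a))
      (∑ j : Fin m, ∑ _a ∈ range (μ j.castSucc), 1) :=
    IsHomogeneous.prod _ _ _ fun j _ => IsHomogeneous.prod _ _ _ fun a _ => lin_hom j (c a)
  have h2 := h1.mul (isHomogeneous_X_pow (R := k) (Fin.last m) (μ (Fin.last m)))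
  have h3 : (∑ j : Fin m, ∑ _a ∈ range (μ j.castSucc), 1) + μ (Fin.last m) = d := by
    rw [← mem_Lam.1 hμ, Fin.sum_univ_castSucc]
    simp
  rwa [h3] at h2

lemma le_of_mem_Lam {d : ℕ} {μ : Fin (m + 1) → ℕ} (hμ : μ ∈ Lam d m) (t : Fin (m + 1)) :
    μ t ≤ d := by
  have := sum_split μ t
  rw [mem_Lam.1 hμ] at this
  omega

/-- evaluation point -/
def pt (c : ℕ → k) (μ : Fin (m + 1) → ℕ) : Fin (m + 1) → k :=
  Fin.lastCases 1 fun j => c (μ j.castSucc)

lemma eval_G (c : ℕ → k) (μ β : Fin (m + 1) → ℕ) :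
    eval (pt c μ) (G c β) = ∏ j : Fin m, ∏ a ∈ range (β j.castSucc), (c (μ j.castSucc) - c a) := by
  simp [G, lin, pt]

lemma G_li (c : ℕ → k) {d : ℕ} (hc : Set.InjOn c (Set.Iic d)) :
    LinearIndependent k (fun μ : Lam d m => G c (μ : Fin (m + 1) → ℕ)) := by
  classical
  rw [Fintype.linearIndependent_iff]
  intro g hg
  by_contra hne
  push Not at hne
  obtain ⟨μ, hμ, hmax⟩ := exists_max_image (univ.filter fun β : Lam d m => g β ≠ 0)
    (fun β => (β : Fin (m + 1) → ℕ) (Fin.last m)) (by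
      obtain ⟨i, hi⟩ := hne
      exact ⟨i, by simpa using hi⟩)
  have hμ' : g μ ≠ 0 := by simpa using hμ
  have h1 := congrArg (eval (pt c μ)) hg
  rw [map_sum, map_zero, Finset.sum_eq_single μ] at h1
  · rw [smul_eval, eval_G, mul_eq_zero] at h1
    rcases h1 with h1 | h1
    · exact hμ' h1
    · rw [prod_eq_zero_iff] at h1
      obtain ⟨j, -, h1⟩ := h1
      rw [prod_eq_zero_iff] at h1
      obtain ⟨a, ha, h1⟩ := h1
      have h2 := le_of_mem_Lam μ.2 j.castSucc
      have h3 := mem_range.1 ha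
      have := hc (show _ ≤ d from h2) (show a ≤ d by omega) (sub_eq_zero.1 h1)
      omega
  · intro β _ hβ
    by_cases hg0 : g β = 0
    · rw [hg0]; simp
    rw [smul_eval, eval_G]
    have h2 := hmax β (by simpa using hg0)
    have h3 : ∃ j : Fin m, (μ : Fin (m + 1) → ℕ) j.castSucc < (β : Fin (m + 1) → ℕ) j.castSucc := by
      by_contra hcon
      push Not at hcon
      apply hβ
      apply Subtype.ext
      have hle : ∀ t, (β : Fin (m + 1) → ℕ) t ≤ (μ : Fin (m + 1) → ℕ) t := by
        intro t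
        induction t using Fin.lastCases with
        | last => exact h2
        | cast j => exact hcon j
      have hs : ∑ t, (β : Fin (m + 1) → ℕ) t = ∑ t, (μ : Fin (m + 1) → ℕ) t := by
        rw [mem_Lam.1 β.2, mem_Lam.1 μ.2]
      funext t
      exact (sum_eq_sum_iff_of_le fun t _ => hle t).1 hs t (mem_univ t)
    obtain ⟨j, hj⟩ := h3
    rw [prod_eq_zero (mem_univ j) (prod_eq_zero (mem_range.2 hj) (sub_self _)), mul_zero]
  · intro h
    exact absurd (mem_univ μ) h

/-- substitution `x_t ↦ w_t x_last` for `t < u` -/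
noncomputable def sb (w : Fin m → k) (u : ℕ) :
    MvPolynomial (Fin (m + 1)) k →ₐ[k] MvPolynomial (Fin (m + 1)) k :=
  aeval (Fin.lastCases (X (Fin.last m))
    fun t : Fin m => if (t : ℕ) < u then C (w t) * X (Fin.last m) else X t.castSucc)

lemma sb_last (w : Fin m → k) (u : ℕ) : sb w u (X (Fin.last m)) = X (Fin.last m) := by
  simp [sb]

lemma sb_lt (w : Fin m → k) {u : ℕ} {t : Fin m} (h : (t : ℕ) < u) :
    sb w u (X t.castSucc) = C (w t) * X (Fin.last m) := by
  simp [sb, h]

lemma sb_ge (w : Fin m → k) {u : ℕ} {t : Fin m} (h : ¬ (t : ℕ) < u) :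
    sb w u (X t.castSucc) = X t.castSucc := by
  simp [sb, h]

lemma sb_lin (w : Fin m → k) {u : ℕ} {t : Fin m} (h : (t : ℕ) < u) (c : k) :
    sb w u (lin t c) = C (w t - c) * X (Fin.last m) := by
  rw [lin, map_sub, map_mul, sb_lt w h, sb_last, algHom_C, algebraMap_eq, map_sub, sub_mul]

lemma lin_mem_iff (w : Fin m → k) {u : ℕ} {t : Fin m} (h : (t : ℕ) < u) (c : k) :
    lin t c ∈ RingHom.ker (sb w u) ↔ w t = c := by
  rw [RingHom.mem_ker, sb_lin w h, mul_eq_zero, C_eq_zero, sub_eq_zero]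
  simp [X_ne_zero]

lemma lin_notMem (w : Fin m → k) {u : ℕ} {t : Fin m} (h : ¬ (t : ℕ) < u) (c : k) :
    lin t c ∉ RingHom.ker (sb w u) := by
  rw [RingHom.mem_ker, lin, map_sub, map_mul, sb_ge w h, sb_last, algHom_C, algebraMap_eq]
  intro h1
  have := congrArg (eval (fun s => if s = t.castSucc then 1 else 0)) h1
  simp [(Fin.castSucc_lt_last t).ne'] at this

lemma ker_le (w : Fin m → k) (u : ℕ) {Q : Ideal (MvPolynomial (Fin (m + 1)) k)}
    (h : ∀ t : Fin m, (t : ℕ) < u → lin t (w t) ∈ Q) : RingHom.ker (sb w u) ≤ Q := by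
  intro f hf
  have := sub_mem_of_algHom (sb w u) Q (by
    intro j
    induction j using Fin.lastCases with
    | last => rw [sb_last, sub_self]; exact zero_mem _
    | cast t =>
      by_cases ht : (t : ℕ) < u
      · rw [sb_lt w ht]; exact h t ht
      · rw [sb_ge w ht, sub_self]; exact zero_mem _) f
  rw [RingHom.mem_ker] at hf
  rwa [hf, sub_zero] at this

lemma height_ker (w : Fin m → k) (u : ℕ) (hu : u ≤ m) :
    (RingHom.ker (sb w u)).height = u := by
  classical
  apply le_antisymm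
  · let s : Finset (MvPolynomial (Fin (m + 1)) k) :=
      (univ : Finset (Fin u)).image fun t => lin (Fin.castLE hu t) (w (Fin.castLE hu t))
    have hs : RingHom.ker (sb w u) = Ideal.span (s : Set (MvPolynomial (Fin (m + 1)) k)) := by
      apply le_antisymm
      · refine ker_le w u fun t ht => Ideal.subset_span ?_
        simp only [s, coe_image, coe_univ, Set.image_univ, Set.mem_range]
        exact ⟨⟨t, ht⟩, rfl⟩
      · rw [Ideal.span_le]
        intro f hf
        simp only [s, coe_image, coe_univ, Set.image_univ, Set.mem_range] at hf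
        obtain ⟨t, rfl⟩ := hf
        exact (lin_mem_iff w (by simp) _).2 rfl
    have hp : (RingHom.ker (sb w u)).IsPrime := RingHom.ker_isPrime _
    have h1 : RingHom.ker (sb w u) ∈
        (Ideal.span (s : Set (MvPolynomial (Fin (m + 1)) k))).minimalPrimes := by
      rw [← hs, Ideal.minimalPrimes_eq_subsingleton_self]; rfl
    refine (Ideal.height_le_card_of_mem_minimalPrimes_span_finset h1).trans ?_
    have : s.card ≤ u := card_image_le.trans (by simp)
    exact_mod_cast this
  · induction u with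
    | zero => simp
    | succ u ih =>
      have hp : (RingHom.ker (sb w u)).IsPrime := RingHom.ker_isPrime _
      have hp' : (RingHom.ker (sb w (u + 1))).IsPrime := RingHom.ker_isPrime _
      have hlt : RingHom.ker (sb w u) < RingHom.ker (sb w (u + 1)) := by
        refine lt_of_le_of_ne (ker_le w u fun t ht => (lin_mem_iff w (by omega) _).2 rfl) ?_
        intro h
        have h1 : lin (⟨u, by omega⟩ : Fin m) (w ⟨u, by omega⟩) ∈ RingHom.ker (sb w (u + 1)) :=
          (lin_mem_iff w (by simp) _).2 rfl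
        rw [← h] at h1
        exact lin_notMem w (by simp) _ h1
      have h2 := Ideal.height_add_one_le_of_lt_of_isPrime hlt
      refine le_trans ?_ h2
      push_cast
      gcongr
      exact ih (by omega)

/-- the constants defining the component `(j, a)` -/
def wv (c : ℕ → k) (ν : Fin (m + 1) → ℕ) (j : Fin m) (a : ℕ) : Fin m → k :=
  fun t => if t = j then c a else c (ν t.castSucc)

lemma G_mem (c : ℕ → k) {ν μ : Fin (m + 1) → ℕ} (h : toLex ν ≤ toLex μ) (j : Fin m) {a : ℕ}
    (ha : a < ν j.castSucc) : G c μ ∈ RingHom.ker (sb (wv c ν j a) (j + 1)) := by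
  classical
  have key : ∃ t : Fin m, (t : ℕ) < j + 1 ∧ ∃ b < μ t.castSucc, wv c ν j a t = c b := by
    by_cases hall : ∀ t < j.castSucc, ν t = μ t
    · refine ⟨j, by omega, a, lt_of_lt_of_le ha (Pi.apply_le_of_toLex h hall), by simp [wv]⟩
    · rcases h.lt_or_eq with hlt | heq
      · obtain ⟨i, hi1, hi2⟩ := hlt
        have hi : i < j.castSucc := by
          by_contra hcon
          exact hall fun t ht => hi1 t (lt_of_lt_of_le ht (not_lt.1 hcon))
        have hil : i ≠ Fin.last m := (hi.trans (Fin.castSucc_lt_last j)).ne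
        obtain ⟨t, rfl⟩ := Fin.exists_castSucc_eq.2 hil
        have ht : t < j := Fin.castSucc_lt_castSucc_iff.1 hi
        refine ⟨t, by have := Fin.lt_def.1 ht; omega, ν t.castSucc, hi2, by simp [wv, ht.ne]⟩
      · exact absurd (fun t _ => congrFun (toLex.injective heq) t) hall
  obtain ⟨t, ht, b, hb, hw⟩ := key
  refine Ideal.mul_mem_right _ _ ?_
  refine Ideal.prod_mem _ (mem_univ t) (Ideal.prod_mem _ (mem_range.2 hb) ?_)
  exact (lin_mem_iff _ ht _).2 hw

lemma comp_minimal (c : ℕ → k) {d : ℕ} (hc : Set.InjOn c (Set.Iic d)) {ν : Fin (m + 1) → ℕ}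
    (hν : ν ∈ Lam d m) (j : Fin m) {a : ℕ} {Q : Ideal (MvPolynomial (Fin (m + 1)) k)}
    (hQ : Q.IsPrime) (hG : ∀ μ ∈ Lam d m, toLex ν ≤ toLex μ → G c μ ∈ Q)
    (hle : Q ≤ RingHom.ker (sb (wv c ν j a) (j + 1))) :
    RingHom.ker (sb (wv c ν j a) (j + 1)) ≤ Q := by
  classical
  refine ker_le _ _ fun t ht => ?_
  let μ : Fin (m + 1) → ℕ := fun s =>
    if s < t.castSucc then ν s else if s = t.castSucc then d - ps ν t.castSucc else 0
  have hsp := sum_split ν t.castSucc
  rw [mem_Lam.1 hν] at hsp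
  have hμt : μ t.castSucc = d - ps ν t.castSucc := by simp [μ]
  have hμlt : ∀ s < t.castSucc, μ s = ν s := fun s hs => by simp [μ, hs]
  have hμgt : ∀ s, t.castSucc < s → μ s = 0 := fun s hs => by
    simp [μ, hs.ne', not_lt.2 hs.le]
  have hμ : μ ∈ Lam d m := by
    rw [mem_Lam, sum_split μ t.castSucc, hμt,
      show ps μ t.castSucc = ps ν t.castSucc from sum_congr rfl fun s hs => hμlt s (mem_Iio.1 hs),
      sum_eq_zero fun s hs => hμgt s (mem_Ioi.1 hs)]
    omega
  have hνμ : toLex ν ≤ toLex μ := by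
    by_contra hcon
    obtain ⟨i, hi1, hi2⟩ := not_le.1 hcon
    have hi2' : μ i < ν i := hi2
    rcases lt_trichotomy i t.castSucc with h | h | h
    · rw [hμlt i h] at hi2'; exact lt_irrefl _ hi2'
    · rw [h, hμt] at hi2'; omega
    · have h1 : μ t.castSucc = ν t.castSucc := hi1 _ h
      have h2 : ν i ≤ ∑ s ∈ Ioi t.castSucc, ν s :=
        single_le_sum (f := ν) (fun _ _ => Nat.zero_le _) (mem_Ioi.2 h)
      omega
  have h1 := hG μ hμ hνμ
  rw [G, hμgt _ (Fin.castSucc_lt_last t), pow_zero, mul_one, hQ.prod_mem_iff] at h1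
  obtain ⟨s, -, h1⟩ := h1
  rw [hQ.prod_mem_iff] at h1
  obtain ⟨b, hb, h1⟩ := h1
  have hb' := mem_range.1 hb
  rcases lt_trichotomy s t with h | h | h
  · exfalso
    have hs : (s : ℕ) < j := by have := Fin.lt_def.1 h; omega
    have h2 := (lin_mem_iff _ (show (s : ℕ) < j + 1 by omega) _).1 (hle h1)
    have h3 : s ≠ j := fun h => by rw [h] at hs; exact lt_irrefl _ hs
    rw [hμlt _ (Fin.castSucc_lt_castSucc_iff.2 h)] at hb'
    simp only [wv, if_neg h3] at h2
    have h4 := le_of_mem_Lam hν s.castSucc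
    have := hc (show _ ≤ d from h4) (show b ≤ d by omega) h2
    omega
  · rw [h] at h1
    have h2 := (lin_mem_iff _ ht _).1 (hle h1)
    rw [h2]; exact h1
  · rw [hμgt _ (Fin.castSucc_lt_castSucc_iff.2 h)] at hb'
    omega

theorem lower {d r : ℕ} (c : ℕ → k) (hc : Set.InjOn c (Set.Iic d)) {ν : Fin (m + 1) → ℕ}
    (hν : ν ∈ Lam d m) (hr : rank d ν = r) :
    ∃ F ∈ Fam k m d r, ∀ j : Fin m, ν j.castSucc ≤ dimType F j := by
  classical
  let U := (Lam d m).filter fun μ => toLex ν ≤ toLex μ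
  have hU : U.card = r := by rw [← hr, rank]
  let φ := U.equivFinOfCardEq hU
  have hUL : ∀ x : U, (x : Fin (m + 1) → ℕ) ∈ Lam d m := fun x => (mem_filter.1 x.2).1
  let F : Fin r → MvPolynomial (Fin (m + 1)) k := fun i => G c (φ.symm i)
  refine ⟨F, ⟨?_, fun i => G_hom c (hUL _)⟩, fun j => ?_⟩
  · refine (G_li c hc).comp (fun i => (⟨φ.symm i, hUL _⟩ : Lam d m)) fun i i' h => ?_
    exact φ.symm.injective (Subtype.ext (congrArg (fun x : Lam d m => x.1) h))
  · let L : ℕ → Ideal (MvPolynomial (Fin (m + 1)) k) :=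
      fun a => RingHom.ker (sb (wv c ν j a) (j + 1))
    have hfin : {P : Ideal (MvPolynomial (Fin (m + 1)) k) |
        P ∈ (Ideal.span (Set.range F)).minimalPrimes ∧
          P.height = (((j : ℕ) + 1 : ℕ) : ℕ∞)}.Finite :=
      (Ideal.finite_minimalPrimes_of_isNoetherianRing _ _).subset fun P hP => hP.1
    have h1 := Set.ncard_le_ncard_of_injOn (s := (range (ν j.castSucc) : Set ℕ)) L
      (fun a ha => ?_) (fun a ha b hb hab => ?_) hfin
    · rw [Set.ncard_coe_finset, card_range] at h1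
      exact h1
    · have ha' : a < ν j.castSucc := by simpa using ha
      refine ⟨⟨⟨RingHom.ker_isPrime _, ?_⟩, fun Q hQ hle => ?_⟩, height_ker _ _ j.2⟩
      · rw [Ideal.span_le]
        rintro _ ⟨i, rfl⟩
        exact G_mem c (mem_filter.1 (φ.symm i).2).2 j ha'
      · refine comp_minimal c hc hν j hQ.1 (fun μ hμ hνμ => hQ.2 (Ideal.subset_span ?_)) hle
        exact ⟨φ ⟨μ, mem_filter.2 ⟨hμ, hνμ⟩⟩, by simp [F]⟩
    · have ha' : a < ν j.castSucc := by simpa using ha
      have hb' : b < ν j.castSucc := by simpa using hb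
      have h2 : lin j (c a) ∈ L a := (lin_mem_iff _ (by omega) _).2 (by simp [wv])
      rw [hab] at h2
      have h3 := (lin_mem_iff _ (by omega) _).1 h2
      simp only [wv, if_true] at h3
      have h4 := le_of_mem_Lam hν j.castSucc
      exact (hc (show b ≤ d by omega) (show a ≤ d by omega) h3).symm

theorem dimType_isGreatest (k : Type) [Field k] [Finite k] (m d r : ℕ) (hq : d < Nat.card k)
    (h1 : 1 ≤ r) (h2 : r ≤ (m + d).choose d) :
    IsGreatest ((fun F => toLex (dimType F)) '' Fam k m d r)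
      (toLex fun i : Fin m => nu d m r i.castSucc) := by
  obtain ⟨hν, hr⟩ := nu_spec h1 h2
  obtain ⟨c, hc⟩ : ∃ c : ℕ → k, Set.InjOn c (Set.Iic d) := by
    let e := (Finite.equivFin k).symm
    refine ⟨fun a => if h : a < Nat.card k then e ⟨a, h⟩ else 0, fun a ha b hb hab => ?_⟩
    have ha' : a < Nat.card k := lt_of_le_of_lt ha hq
    have hb' : b < Nat.card k := lt_of_le_of_lt hb hq
    simp only [dif_pos ha', dif_pos hb'] at hab
    exact congrArg Fin.val (e.injective hab)
  refine ⟨?_, ?_⟩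
  · obtain ⟨F, hF, hle⟩ := lower c hc hν hr
    exact ⟨F, hF, le_antisymm (upper hν hr hF) (Pi.toLex_monotone hle)⟩
  · rintro _ ⟨F, hF, rfl⟩
    exact upper hν hr hF

end Pool.Agent.H241Z.BT
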